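import Pool.Agent.W25.UN.Stm2

set_option autoImplicit false
open Filter Topology

namespace Pool.Agent.W293.UN.Cc

open Pool.Agent.W25.UN

theorem card_pf (m : ℕ) (hm : m ≠ 0) : (m.primeFactors.card : ℝ) ≤ Real.log m / Real.log 2 := by
  have h1 : 2 ^ m.primeFactors.card ≤ ∏ p ∈ m.primeFactors, p := by
    refine Finset.pow_card_le_prod _ _ _ fun p hp => ?_
    exact (Nat.prime_of_mem_primeFactors hp).two_le
  have h2 : ∏ p ∈ m.primeFactors, p ≤ m :=
    Nat.le_of_dvd (Nat.pos_of_ne_zero hm) (Nat.prod_primeFactors_dvd m)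
  have h3 : ((2 : ℝ) ^ m.primeFactors.card) ≤ m := by exact_mod_cast h1.trans h2
  have h4 := Real.log_le_log (by positivity) h3
  rw [Real.log_pow] at h4
  rwa [le_div_iff₀ (Real.log_pos (by norm_num))]

theorem main : CLcard := by
  intro k α h hα hαh
  set H : ℤ := ∑ i, |α i| + ∑ i, |h i| + 1 with hH
  have hαH : ∀ i, |α i| ≤ H := by
    intro i
    have h1 : |α i| ≤ ∑ i, |α i| := Finset.single_le_sum (fun j _ => abs_nonneg (α j)) (Finset.mem_univ i)
    have h2 : 0 ≤ ∑ i, |h i| := Finset.sum_nonneg fun j _ => abs_nonneg _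
    linarith
  have hhH : ∀ i, |h i| ≤ H := by
    intro i
    have h1 : |h i| ≤ ∑ i, |h i| := Finset.single_le_sum (fun j _ => abs_nonneg (h j)) (Finset.mem_univ i)
    have h2 : 0 ≤ ∑ i, |α i| := Finset.sum_nonneg fun j _ => abs_nonneg _
    linarith
  have hH1 : 1 ≤ H := by
    have h1 : 0 ≤ ∑ i, |h i| := Finset.sum_nonneg fun j _ => abs_nonneg _
    have h2 : 0 ≤ ∑ i, |α i| := Finset.sum_nonneg fun j _ => abs_nonneg _
    linarith
  have hcross : ∀ i j, |α i * h j - α j * h i| ≤ 2 * H ^ 2 := by
    intro i j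
    have h1 : |α i * h j| ≤ H ^ 2 := by
      rw [abs_mul, sq]
      exact mul_le_mul (hαH i) (hhH j) (abs_nonneg _) (by linarith)
    have h2 : |α j * h i| ≤ H ^ 2 := by
      rw [abs_mul, sq]
      exact mul_le_mul (hαH j) (hhH i) (abs_nonneg _) (by linarith)
    have h3 := abs_sub (α i * h j) (α j * h i)
    linarith
  refine ⟨((k + 1 : ℕ) : ℝ) ^ 2 * (2 / Real.log 2), ?_⟩
  filter_upwards [eventually_ge_atTop (2 * H ^ 2 + 4 * H + 2).toNat] with N hN
  have hNZ : 2 * H ^ 2 + 4 * H + 2 ≤ (N : ℤ) := by
    have := Int.toNat_le.mp hN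
    exact this
  have hN0 : (0 : ℤ) ≤ N := by positivity
  -- bound and non-vanishing
  have hres : ∀ j l : Option (Fin k), j ≠ l →
      uB α j * wB h N l - uB α l * wB h N j ≠ 0 ∧
      |uB α j * wB h N l - uB α l * wB h N j| ≤ 4 * H * N := by
    have hpos : ∀ i, 0 < (N : ℤ) + h i ∧ (N : ℤ) + h i ≤ 4 * H * N := by
      intro i
      have h1 := abs_le.mp (hhH i)
      constructor
      · nlinarith
      · nlinarith
    intro j l hjl
    rcases j with _ | j
    · rcases l with _ | l
      · exact absurd rfl hjl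
      · simp only [uB, wB, one_mul, mul_zero, sub_zero]
        obtain ⟨h1, h2⟩ := hpos l
        exact ⟨h1.ne', by rw [abs_of_pos h1]; exact h2⟩
    · rcases l with _ | l
      · simp only [uB, wB, one_mul, mul_zero, zero_sub]
        obtain ⟨h1, h2⟩ := hpos j
        exact ⟨neg_ne_zero.mpr h1.ne', by rw [abs_neg, abs_of_pos h1]; exact h2⟩
      · simp only [uB, wB]
        have hjl' : j ≠ l := fun e => hjl (by rw [e])
        have e : α j * ((N : ℤ) + h l) - α l * ((N : ℤ) + h j) =
            (α j - α l) * N + (α j * h l - α l * h j) := by ring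
        rw [e]
        have hc := hcross j l
        constructor
        · by_cases hjα : α j = α l
          · have hh : h j ≠ h l := fun e' => hαh j l hjl' ⟨hjα, e'⟩
            have e2 : (α j - α l) * N + (α j * h l - α l * h j) = α j * (h l - h j) := by
              rw [← hjα]
              ring
            rw [e2]
            exact mul_ne_zero (hα j) (sub_ne_zero.mpr (Ne.symm hh))
          · intro e0
            have h1 : |(α j - α l) * (N : ℤ)| = |α j * h l - α l * h j| := by
              have : (α j - α l) * (N : ℤ) = -(α j * h l - α l * h j) := by linarith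
              rw [this, abs_neg]
            have h2 : 1 ≤ |α j - α l| := Int.one_le_abs (sub_ne_zero.mpr hjα)
            rw [abs_mul, abs_of_nonneg hN0] at h1
            have h3 : (N : ℤ) ≤ |α j - α l| * N := le_mul_of_one_le_left hN0 h2
            nlinarith
        · refine (abs_add_le _ _).trans ?_
          rw [abs_mul, abs_of_nonneg hN0]
          have h1 : |α j - α l| ≤ 2 * H := by
            have := abs_sub (α j) (α l)
            linarith [hαH j, hαH l]
          have h2 : |α j - α l| * (N : ℤ) ≤ 2 * H * N := mul_le_mul_of_nonneg_right h1 hN0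
          nlinarith
  refine ⟨fun j l hjl => (hres j l hjl).1, ?_⟩
  unfold CL
  set P : ℤ := ∏ j, ∏ l, if j = l then (1 : ℤ) else uB α j * wB h N l - uB α l * wB h N j with hP
  have hP0 : P ≠ 0 := by
    rw [hP]
    refine Finset.prod_ne_zero_iff.mpr fun j _ => Finset.prod_ne_zero_iff.mpr fun l _ => ?_
    split_ifs with hjl
    · exact one_ne_zero
    · exact (hres j l hjl).1
  have hPb : |P| ≤ (4 * H * N) ^ ((k + 1) ^ 2) := by
    rw [hP, Finset.abs_prod]
    have h1 : ∀ j ∈ (Finset.univ : Finset (Option (Fin k))),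
        |∏ l, if j = l then (1 : ℤ) else uB α j * wB h N l - uB α l * wB h N j| ≤
          (4 * H * N) ^ (k + 1) := by
      intro j _
      rw [Finset.abs_prod]
      have h2 : ∀ l ∈ (Finset.univ : Finset (Option (Fin k))),
          |if j = l then (1 : ℤ) else uB α j * wB h N l - uB α l * wB h N j| ≤ 4 * H * N := by
        intro l _
        split_ifs with hjl
        · rw [abs_one]
          nlinarith
        · exact (hres j l hjl).2
      have h3 := Finset.prod_le_prod (s := (Finset.univ : Finset (Option (Fin k))))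
        (fun l _ => abs_nonneg _) h2
      refine h3.trans (le_of_eq ?_)
      rw [Finset.prod_const, Finset.card_univ, Fintype.card_option, Fintype.card_fin]
    have h3 := Finset.prod_le_prod (s := (Finset.univ : Finset (Option (Fin k))))
      (fun l _ => abs_nonneg _) h1
    refine h3.trans (le_of_eq ?_)
    rw [Finset.prod_const, Finset.card_univ, Fintype.card_option, Fintype.card_fin, ← pow_mul, sq]
  have hnat : P.natAbs ≠ 0 := Int.natAbs_ne_zero.mpr hP0
  refine (card_pf _ hnat).trans ?_
  have hlog2 : 0 < Real.log 2 := Real.log_pos (by norm_num)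
  have hNr : ((2 * H ^ 2 + 4 * H + 2 : ℤ) : ℝ) ≤ N := by exact_mod_cast hNZ
  push_cast at hNr
  have hH1r : (1 : ℝ) ≤ H := by exact_mod_cast hH1
  have hNp : (0 : ℝ) < N := by nlinarith
  have hcast : ((P.natAbs : ℕ) : ℝ) = |(P : ℝ)| := by
    rw [Nat.cast_natAbs]
    push_cast
    rfl
  have hb : ((P.natAbs : ℕ) : ℝ) ≤ (4 * (H : ℝ) * N) ^ ((k + 1) ^ 2) := by
    rw [hcast]
    exact_mod_cast hPb
  have h1 : Real.log (P.natAbs : ℝ) ≤ ((k + 1) ^ 2 : ℕ) * (2 * Real.log N) := by
    have h2 := Real.log_le_log (by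
      have := Nat.pos_of_ne_zero hnat
      exact_mod_cast this) hb
    rw [Real.log_pow] at h2
    refine h2.trans (mul_le_mul_of_nonneg_left ?_ (by positivity))
    rw [Real.log_mul (by positivity) hNp.ne']
    have h3 : Real.log (4 * (H : ℝ)) ≤ Real.log N := by
      refine Real.log_le_log (by positivity) ?_
      nlinarith
    linarith
  rw [div_le_iff₀ hlog2]
  refine h1.trans (le_of_eq ?_)
  push_cast
  field_simp

end Pool.Agent.W293.UN.Cc
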