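import Pool.Agent.W25.UN.Stm2

set_option autoImplicit false
open Filter Topology

namespace Pool.Agent.W293.UN.Pn

open Pool.Agent.W25.UN Pool.Agent.H410R2

theorem main (h : Pool.Agent.H410R2.PNTLog) : PntT := by
  intro a ε κ1 ha hε hκ1
  set e := ε * κ1 ^ 2 / 12 with he
  have he0 : 0 < e := by positivity
  have h1 : ∀ᶠ X : ℝ in atTop, |psiLog1 X - X| ≤ e * X := by
    have h2 : ∀ᶠ X : ℝ in atTop, |psiLog1 X / X - 1| < e := by
      have := (Metric.tendsto_nhds.mp h) e he0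
      simpa [Real.dist_eq] using this
    filter_upwards [h2, eventually_gt_atTop 0] with X hX hX0
    have e1 : psiLog1 X - X = (psiLog1 X / X - 1) * X := by
      field_simp
    rw [e1, abs_mul, abs_of_pos hX0]
    exact mul_le_mul_of_nonneg_right hX.le hX0.le
  obtain ⟨X0, hX0⟩ := eventually_atTop.mp h1
  filter_upwards [eventually_ge_atTop (3 * X0), eventually_gt_atTop 0] with x0 hx0 hx00
  intro κ hκ hκ'
  have hκ0 : 0 < κ := hκ1.trans_le hκ
  have ha1 : (1 : ℝ) ≤ a := by exact_mod_cast ha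
  have ha0 : (0 : ℝ) < a := by linarith
  have hexp1 : Real.exp κ ≤ 3 := by
    have : Real.exp κ ≤ Real.exp 1 := Real.exp_le_exp.mpr hκ'
    have := Real.exp_one_lt_d9
    linarith
  have hexp1' : 1 ≤ Real.exp κ := Real.one_le_exp hκ0.le
  have hexp2 : Real.exp (-κ) ≤ 1 := Real.exp_le_one_iff.mpr (by linarith)
  have hexp3 : 1 / 3 ≤ Real.exp (-κ) := by
    rw [Real.exp_neg, ← one_div]
    exact one_div_le_one_div_of_le (Real.exp_pos _) hexp1
  have hax : x0 ≤ a * x0 := le_mul_of_one_le_left hx00.le ha1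
  have hb1 := hX0 (a * (x0 * Real.exp κ)) (by nlinarith [mul_le_mul_of_nonneg_left hexp1' (by positivity : 0 ≤ (a : ℝ) * x0)])
  have hb0 := hX0 (a * x0) (by nlinarith)
  have hb2 := hX0 (a * (x0 * Real.exp (-κ))) (by nlinarith [mul_le_mul_of_nonneg_left hexp3 (by positivity : 0 ≤ (a : ℝ) * x0)])
  set P1 := psiLog1 (a * (x0 * Real.exp κ)) with hP1
  set P0 := psiLog1 (a * x0) with hP0
  set P2 := psiLog1 (a * (x0 * Real.exp (-κ))) with hP2
  have e1 : Mt a x0 κ - ts x0 κ = 1 / (κ * a) * ((P1 - a * (x0 * Real.exp κ)) -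
      2 * (P0 - a * x0) + (P2 - a * (x0 * Real.exp (-κ)))) := by
    unfold Mt ts
    rw [← hP1, ← hP0, ← hP2]
    field_simp
    ring
  rw [e1, abs_mul, abs_of_pos (by positivity : 0 < 1 / (κ * (a : ℝ)))]
  have h3 : |(P1 - a * (x0 * Real.exp κ)) - 2 * (P0 - a * x0) + (P2 - a * (x0 * Real.exp (-κ)))| ≤
      6 * (e * (a * x0)) := by
    have c1 : e * (a * (x0 * Real.exp κ)) ≤ 3 * (e * (a * x0)) := by
      have := mul_le_mul_of_nonneg_left hexp1 (by positivity : 0 ≤ e * ((a : ℝ) * x0))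
      linarith
    have c2 : e * (a * (x0 * Real.exp (-κ))) ≤ e * (a * x0) := by
      have := mul_le_mul_of_nonneg_left hexp2 (by positivity : 0 ≤ e * ((a : ℝ) * x0))
      linarith
    rw [abs_le] at hb1 hb0 hb2 ⊢
    constructor <;> linarith [hb1.1, hb1.2, hb0.1, hb0.2, hb2.1, hb2.2]
  refine (mul_le_mul_of_nonneg_left h3 (by positivity)).trans ?_
  have e2 : 1 / (κ * (a : ℝ)) * (6 * (e * (a * x0))) = ε * κ1 ^ 2 * x0 / (2 * κ) := by
    rw [he]
    field_simp
    ring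
  rw [e2, div_le_iff₀ (by positivity)]
  have h4 : κ1 ^ 2 ≤ κ ^ 2 := pow_le_pow_left₀ hκ1.le hκ 2
  have h5 : ε * x0 * κ1 ^ 2 ≤ ε * x0 * κ ^ 2 := mul_le_mul_of_nonneg_left h4 (by positivity)
  have h6 : 0 ≤ ε * x0 * κ ^ 2 := by positivity
  nlinarith

end Pool.Agent.W293.UN.Pn
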